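import Pool.Agent.P8H69.IE.Stm

/-!
# Package IE/FIB (for helper69)
-/

set_option autoImplicit false

open Finset

namespace Pool.Agent.P8H88.IE

open Pool.Agent.P8H69.IE

theorem fib : S_FIB := by
  intro n _ V W V' W' hd hd' hI hI' hU z hz hzV
  have key : ∀ s : ℕ, z + (s : ZMod n) ∈ V ∪ W →
      (z + (s : ZMod n) ∈ V ↔ z + (s : ZMod n) ∈ V') := by
    intro s
    induction s using Nat.strong_induction_on with
    | _ s ih =>
      intro hs
      rcases Nat.eq_zero_or_pos s with h0 | h0
      · subst h0
        rw [Nat.cast_zero, add_zero]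
        exact hzV
      · obtain ⟨u, hu, hmax⟩ := ((range s).filter fun u : ℕ => z + (u : ZMod n) ∈ V ∪ W).exists_max_image
          id ⟨0, mem_filter.2 ⟨mem_range.2 h0, by rw [Nat.cast_zero, add_zero]; exact hz⟩⟩
        obtain ⟨hu1, hu2⟩ := mem_filter.1 hu
        rw [mem_range] at hu1
        have e1 : ∀ t : ℕ, z + (u : ZMod n) + (t : ZMod n) = z + ((u + t : ℕ) : ZMod n) := by
          intro t
          rw [Nat.cast_add, add_assoc]
        have e2 : z + (u : ZMod n) + ((s - u : ℕ) : ZMod n) = z + (s : ZMod n) := by
          rw [e1, Nat.add_sub_cancel' hu1.le]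
        have hno : ∀ t : ℕ, 1 ≤ t → t < s - u → z + (u : ZMod n) + (t : ZMod n) ∉ V ∪ W := by
          intro t ht1 ht2 ht3
          rw [e1] at ht3
          have := hmax (u + t) (mem_filter.2 ⟨mem_range.2 (by omega), ht3⟩)
          simp only [id_eq] at this
          omega
        have h1 := hI (z + (u : ZMod n)) hu2 (s - u) (by omega) (by rw [e2]; exact hs) hno
        have h2 := hI' (z + (u : ZMod n)) (hU ▸ hu2) (s - u) (by omega) (by rw [e2, ← hU]; exact hs)
          (by rw [← hU]; exact hno)
        rw [e2] at h1 h2
        have h3 := ih u hu1 hu2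
        have h4 : z + (s : ZMod n) ∈ W ↔ z + (s : ZMod n) ∈ W' := by
          rw [← h1, ← h2, h3]
        have h5 : z + (s : ZMod n) ∈ V ↔ ¬ z + (s : ZMod n) ∈ W := by
          constructor
          · intro h h'
            exact Finset.disjoint_left.1 hd h h'
          · intro h
            exact (mem_union.1 hs).resolve_right h
        have h6 : z + (s : ZMod n) ∈ V' ↔ ¬ z + (s : ZMod n) ∈ W' := by
          rw [hU] at hs
          constructor
          · intro h h'
            exact Finset.disjoint_left.1 hd' h h'
          · intro h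
            exact (mem_union.1 hs).resolve_right h
        rw [h5, h6, h4]
  have key2 : ∀ x ∈ V ∪ W, (x ∈ V ↔ x ∈ V') := by
    intro x hx
    have e : z + (((x - z).val : ℕ) : ZMod n) = x := by
      rw [ZMod.natCast_zmod_val, add_sub_cancel]
    have := key (x - z).val
    rw [e] at this
    exact this hx
  have hVV : V = V' := by
    ext x
    constructor
    · intro h
      exact (key2 x (mem_union_left _ h)).1 h
    · intro h
      exact (key2 x (hU ▸ mem_union_left _ h)).2 h
  refine ⟨hVV, ?_⟩
  ext x
  constructor
  · intro h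
    have h1 : x ∈ V' ∪ W' := hU ▸ mem_union_right _ h
    refine (mem_union.1 h1).resolve_left fun h2 => ?_
    rw [← hVV] at h2
    exact Finset.disjoint_left.1 hd h2 h
  · intro h
    have h1 : x ∈ V ∪ W := hU ▸ mem_union_right _ h
    refine (mem_union.1 h1).resolve_left fun h2 => ?_
    rw [hVV] at h2
    exact Finset.disjoint_left.1 hd' h2 h

end Pool.Agent.P8H88.IE
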